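import Mathlib

/-!
# Two-step nilpotent groups, lattices and left-invariant symplectic forms

The simply connected Lie group of a real Lie algebra `V` with bracket `B`, nilpotent of step at
most two, is `V` itself with the product `x * y = x + y + [x, y] / 2`.
-/

namespace Pool.Agent.W_f4b591

/-- The product `x + y + [x, y] / 2` of the simply connected group with Lie algebra `(V, B)`. -/
noncomputable def mul {V : Type*} [NormedAddCommGroup V] [NormedSpace ℝ V]
    (B : V →L[ℝ] V →L[ℝ] V) (x y : V) : V :=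
  x + y + (1 / 2 : ℝ) • B x y

/-- `B` is the bracket of a real Lie algebra that is nilpotent of step at most two. -/
structure TwoStep {V : Type*} [NormedAddCommGroup V] [NormedSpace ℝ V]
    (B : V →L[ℝ] V →L[ℝ] V) : Prop where
  /-- the bracket is alternating -/
  alt : ∀ x, B x x = 0
  /-- brackets are central -/
  two : ∀ x y z, B (B x y) z = 0

/-- `Γ` is a discrete cocompact subgroup of the group `(V, mul B)`. -/
structure Lattice {V : Type*} [NormedAddCommGroup V] [NormedSpace ℝ V]
    (B : V →L[ℝ] V →L[ℝ] V) (Γ : Set V) : Prop where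
  /-- the unit element -/
  zero_mem : (0 : V) ∈ Γ
  /-- closed under the product -/
  mul_mem : ∀ x ∈ Γ, ∀ y ∈ Γ, mul B x y ∈ Γ
  /-- closed under the inverse -/
  neg_mem : ∀ x ∈ Γ, -x ∈ Γ
  /-- discrete -/
  discrete : ∃ ε : ℝ, 0 < ε ∧ ∀ x ∈ Γ, ‖x‖ < ε → x = 0
  /-- cocompact -/
  cocompact : ∃ K : Set V, IsCompact K ∧ ∀ x, ∃ γ ∈ Γ, mul B γ x ∈ K

/-- `ω` is a symplectic form on the Lie algebra `(V, B)`: alternating, nondegenerate and closed. -/
structure Symplectic {V : Type*} [NormedAddCommGroup V] [NormedSpace ℝ V]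
    (B : V →L[ℝ] V →L[ℝ] V) (ω : V →L[ℝ] V →L[ℝ] ℝ) : Prop where
  /-- the form is alternating -/
  alt : ∀ x, ω x x = 0
  /-- the form is nondegenerate -/
  nondeg : ∀ x, (∀ y, ω x y = 0) → x = 0
  /-- the left-invariant form is closed -/
  closed : ∀ x y z, ω (B x y) z + ω (B y z) x + ω (B z x) y = 0

/-- The left-invariant 2-form on the group `(V, mul B)` with value `ω` at the unit: its value at
the point `p` on the tangent vectors `u`, `v`. The left translation by `p` has derivative
`u ↦ u + [p, u] / 2` at the unit, with inverse `u ↦ u - [p, u] / 2`. -/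
noncomputable def form {V : Type*} [NormedAddCommGroup V] [NormedSpace ℝ V]
    (B : V →L[ℝ] V →L[ℝ] V) (ω : V →L[ℝ] V →L[ℝ] ℝ) (p u v : V) : ℝ :=
  ω (u - (1 / 2 : ℝ) • B p u) (v - (1 / 2 : ℝ) • B p v)

end Pool.Agent.W_f4b591
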