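import Mathlib
import Pool.Agent.W_f4b591.Nil

namespace Pool.Agent.W_f4b591

open Module Submodule

variable {V : Type*} [NormedAddCommGroup V] [NormedSpace ℝ V]
  {B : V →L[ℝ] V →L[ℝ] V} {ω : V →L[ℝ] V →L[ℝ] ℝ} {Γ : Set V}

theorem TwoStep.skew (h : TwoStep B) (x y : V) : B x y = - B y x := by
  have := h.alt (x + y)
  simp only [map_add, ContinuousLinearMap.add_apply, h.alt, zero_add, add_zero] at this
  exact eq_neg_of_add_eq_zero_right this

theorem TwoStep.two' (h : TwoStep B) (x y z : V) : B z (B x y) = 0 := by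
  rw [h.skew, h.two, neg_zero]

theorem Symplectic.skew (h : Symplectic B ω) (x y : V) : ω x y = - ω y x := by
  have := h.alt (x + y)
  simp only [map_add, ContinuousLinearMap.add_apply, h.alt, zero_add, add_zero] at this
  linarith

/-- the commutator ideal -/
def der (B : V →L[ℝ] V →L[ℝ] V) : Submodule ℝ V :=
  span ℝ (Set.range fun p : V × V => B p.1 p.2)

theorem mem_der (x y : V) : B x y ∈ der B := subset_span ⟨(x, y), rfl⟩

/-- the orthogonal -/
def perp (ω : V →L[ℝ] V →L[ℝ] ℝ) (W : Submodule ℝ V) : Submodule ℝ V where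
  carrier := {x | ∀ y ∈ W, ω x y = 0}
  zero_mem' := by simp
  add_mem' := by
    intro a b ha hb y hy
    simp [ha y hy, hb y hy]
  smul_mem' := by
    intro c a ha y hy
    simp [ha y hy]

theorem mem_perp {W : Submodule ℝ V} {x : V} : x ∈ perp ω W ↔ ∀ y ∈ W, ω x y = 0 := Iff.rfl

theorem TwoStep.der_left (h : TwoStep B) {d : V} (hd : d ∈ der B) (z : V) : B d z = 0 := by
  induction hd using span_induction with
  | mem x hx => obtain ⟨p, rfl⟩ := hx; exact h.two _ _ _
  | zero => simp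
  | add x y _ _ hx hy => simp [hx, hy]
  | smul c x _ hx => simp [hx]

theorem TwoStep.der_right (h : TwoStep B) {d : V} (hd : d ∈ der B) (z : V) : B z d = 0 := by
  rw [h.skew, h.der_left hd, neg_zero]

theorem abelian_perp (hB : TwoStep B) (hω : Symplectic B ω) {x y : V}
    (hx : x ∈ perp ω (der B)) (hy : y ∈ perp ω (der B)) : B x y = 0 := by
  apply hω.nondeg
  intro z
  have h := hω.closed x y z
  have h1 : ω (B y z) x = 0 := by rw [hω.skew, hx _ (mem_der y z), neg_zero]
  have h2 : ω (B z x) y = 0 := by rw [hω.skew, hy _ (mem_der z x), neg_zero]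
  linarith

theorem der_isotropic (hB : TwoStep B) (hω : Symplectic B ω) {d d' : V}
    (hd : d ∈ der B) (hd' : d' ∈ der B) : ω d d' = 0 := by
  induction hd using span_induction with
  | mem x hx =>
    obtain ⟨p, rfl⟩ := hx
    have h := hω.closed p.1 p.2 d'
    rw [hB.der_right hd', hB.der_left hd'] at h
    simpa using h
  | zero => simp
  | add x y _ _ hx hy => simp [hx, hy]
  | smul c x _ hx => simp [hx]

theorem der_le_perp (hB : TwoStep B) (hω : Symplectic B ω) : der B ≤ perp ω (der B) :=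
  fun _ hd _ hd' => der_isotropic hB hω hd hd'

/-! ### the group -/

theorem mul_assoc' (hB : TwoStep B) (x y z : V) : mul B (mul B x y) z = mul B x (mul B y z) := by
  simp only [mul, map_add, map_smul, ContinuousLinearMap.add_apply, ContinuousLinearMap.smul_apply,
    hB.two, hB.two', smul_zero, add_zero]
  module

theorem mul_central (hB : TwoStep B) {d : V} (hd : d ∈ der B) (x : V) : mul B x d = x + d := by
  simp [mul, hB.der_right hd]

theorem Lattice.comm_mem (hB : TwoStep B) (hΓ : Lattice B Γ) {x y : V} (hx : x ∈ Γ) (hy : y ∈ Γ) :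
    B x y ∈ Γ := by
  have h := hΓ.mul_mem _ (hΓ.mul_mem _ hx _ hy) _
    (hΓ.mul_mem _ (hΓ.neg_mem _ hx) _ (hΓ.neg_mem _ hy))
  have e : mul B (mul B x y) (mul B (-x) (-y)) = B x y := by
    simp only [mul, map_add, map_smul, map_neg, ContinuousLinearMap.add_apply,
      ContinuousLinearMap.smul_apply, ContinuousLinearMap.neg_apply, hB.two, hB.two', hB.alt,
      smul_zero, add_zero]
    rw [hB.skew y x]
    module
  rwa [e] at h

theorem Lattice.add_mem (hB : TwoStep B) (hΓ : Lattice B Γ) {x y : V} (hx : x ∈ Γ) (hy : y ∈ Γ)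
    (h : B x y = 0) : x + y ∈ Γ := by
  have := hΓ.mul_mem _ hx _ hy
  simpa [mul, h] using this

theorem Lattice.two_mem (hB : TwoStep B) (hΓ : Lattice B Γ) {x : V} (hx : x ∈ Γ) :
    (2 : ℝ) • x ∈ Γ := by
  rw [two_smul]
  exact hΓ.add_mem hB hx hx (hB.alt x)

/-- the additive group generated by the lattice and the halves of its central elements -/
def tilde (hB : TwoStep B) (hΓ : Lattice B Γ) : AddSubgroup V where
  carrier := {x | ∃ γ ∈ Γ, ∃ d ∈ Γ, d ∈ der B ∧ x = γ + (1 / 2 : ℝ) • d}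
  zero_mem' := ⟨0, hΓ.zero_mem, 0, hΓ.zero_mem, zero_mem _, by simp⟩
  add_mem' := by
    rintro a b ⟨γ, hγ, d, hd, hdd, rfl⟩ ⟨γ', hγ', d', hd', hdd', rfl⟩
    refine ⟨mul B γ γ', hΓ.mul_mem _ hγ _ hγ', (d + d') + B γ' γ, ?_, ?_, ?_⟩
    · exact hΓ.add_mem hB (hΓ.add_mem hB hd hd' (hB.der_left hdd _)) (hΓ.comm_mem hB hγ' hγ)
        (hB.two' _ _ _)
    · exact add_mem (add_mem hdd hdd') (mem_der _ _)
    · rw [hB.skew γ' γ]
      simp only [mul]
      module
  neg_mem' := by
    rintro a ⟨γ, hγ, d, hd, hdd, rfl⟩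
    exact ⟨-γ, hΓ.neg_mem _ hγ, -d, hΓ.neg_mem _ hd, neg_mem hdd, by module⟩

theorem mem_tilde (hB : TwoStep B) (hΓ : Lattice B Γ) {x : V} (hx : x ∈ Γ) : x ∈ tilde hB hΓ :=
  ⟨x, hx, 0, hΓ.zero_mem, zero_mem _, by simp⟩

theorem two_mem_of_tilde (hB : TwoStep B) (hΓ : Lattice B Γ) {x : V} (hx : x ∈ tilde hB hΓ) :
    (2 : ℝ) • x ∈ Γ := by
  obtain ⟨γ, hγ, d, hd, hdd, rfl⟩ := hx
  have : (2 : ℝ) • (γ + (1 / 2 : ℝ) • d) = (2 : ℝ) • γ + d := by module
  rw [this]
  exact hΓ.add_mem hB (hΓ.two_mem hB hγ) hd (hB.der_right hdd _)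

/-! ### the lattice spans -/

theorem span_lattice [FiniteDimensional ℝ V] (hB : TwoStep B) (hΓ : Lattice B Γ) :
    span ℝ Γ = ⊤ := by
  have h1 : span ℝ Γ ⊔ der B = ⊤ := by
    by_contra hne
    obtain ⟨φ, hφ0, hφ⟩ := exists_le_ker_of_lt_top _ (lt_top_iff_ne_top.mpr hne)
    obtain ⟨K, hK, hcov⟩ := hΓ.cocompact
    obtain ⟨v, hv⟩ : ∃ v, φ v ≠ 0 := by
      by_contra h
      push Not at h
      exact hφ0 (LinearMap.ext h)
    have hcont : Continuous φ := LinearMap.continuous_of_finiteDimensional φ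
    obtain ⟨C, hC⟩ := (hK.image hcont).isBounded.exists_norm_le
    have key : ∀ x, |φ x| ≤ C := by
      intro x
      obtain ⟨γ, hγ, hx⟩ := hcov x
      have e1 : φ γ = 0 := hφ (mem_sup_left (subset_span hγ))
      have e2 : φ (B γ x) = 0 := hφ (mem_sup_right (mem_der _ _))
      have e : φ (mul B γ x) = φ x := by simp [mul, e1, e2]
      have := hC _ ⟨_, hx, rfl⟩
      rwa [e, Real.norm_eq_abs] at this
    have h2 := key (((|C| + 1) / φ v) • v)
    rw [map_smul, smul_eq_mul, div_mul_cancel₀ _ hv, abs_of_pos (by positivity)] at h2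
    linarith [le_abs_self C]
  have h2 : der B ≤ span ℝ Γ := by
    apply span_le.mpr
    rintro _ ⟨⟨x, y⟩, rfl⟩
    have key : ∀ x ∈ span ℝ Γ, ∀ y ∈ span ℝ Γ, B x y ∈ span ℝ Γ := by
      intro x hx y hy
      induction hx using span_induction with
      | mem x hx =>
        induction hy using span_induction with
        | mem y hy => exact subset_span (hΓ.comm_mem hB hx hy)
        | zero => simp
        | add y z _ _ hy hz => rw [map_add]; exact add_mem hy hz
        | smul c y _ hy => rw [map_smul]; exact smul_mem _ _ hy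
      | zero => simp
      | add x z _ _ hx hz => rw [map_add, ContinuousLinearMap.add_apply]; exact add_mem hx hz
      | smul c x _ hx => rw [map_smul, ContinuousLinearMap.smul_apply]; exact smul_mem _ _ hx
    obtain ⟨a, ha, d, hd, rfl⟩ := mem_sup.mp (h1 ▸ mem_top : x ∈ span ℝ Γ ⊔ der B)
    obtain ⟨a', ha', d', hd', rfl⟩ := mem_sup.mp (h1 ▸ mem_top : y ∈ span ℝ Γ ⊔ der B)
    have : B (a + d) (a' + d') = B a a' := by
      simp [hB.der_left hd, hB.der_right hd']
    change B (a + d) (a' + d') ∈ span ℝ Γ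
    rw [this]
    exact key _ ha _ ha'
  rwa [sup_eq_left.mpr h2] at h1

end Pool.Agent.W_f4b591
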