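import Mathlib
import Pool.Agent.W_f4b591.Alg

namespace Pool.Agent.W_f4b591

open Module Submodule

variable {V : Type*} [NormedAddCommGroup V] [NormedSpace ℝ V]
  {B : V →L[ℝ] V →L[ℝ] V} {ω : V →L[ℝ] V →L[ℝ] ℝ} {Γ : Set V}

/-- A subspace spanned by points of an additive group, cut by a functional with values in a cyclic
group on these points, is again spanned by points of the group. -/
theorem rat_one (Λ : AddSubgroup V) (W : Submodule ℝ V)
    (hW : W ≤ span ℝ {x | x ∈ Λ ∧ x ∈ W}) (φ : V →ₗ[ℝ] ℝ) (c : ℝ)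
    (hφ : ∀ x ∈ Λ, x ∈ W → ∃ k : ℤ, φ x = k * c) :
    W ⊓ LinearMap.ker φ ≤ span ℝ {x | x ∈ Λ ∧ x ∈ W ⊓ LinearMap.ker φ} := by
  by_cases h0 : ∀ x ∈ Λ, x ∈ W → φ x = 0
  · have : W ≤ LinearMap.ker φ := by
      refine hW.trans (span_le.mpr ?_)
      rintro x ⟨hx, hxW⟩
      exact h0 x hx hxW
    rw [inf_eq_left.mpr this]
    exact hW
  · push Not at h0
    obtain ⟨l, hl, hlW, hne⟩ := h0
    obtain ⟨k, hk⟩ := hφ l hl hlW
    have hc : c ≠ 0 := by rintro rfl; exact hne (by simpa using hk)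
    have hk0 : (k : ℝ) ≠ 0 := by
      intro h; rw [h, zero_mul] at hk; exact hne hk
    let T : V →ₗ[ℝ] V := (k : ℝ) • LinearMap.id - (c⁻¹ • φ).smulRight l
    have hT : ∀ x, T x = (k : ℝ) • x - (c⁻¹ * φ x) • l := by
      intro x; simp [T]
    have hmap : ∀ x ∈ span ℝ {x | x ∈ Λ ∧ x ∈ W}, T x ∈ span ℝ {x | x ∈ Λ ∧ x ∈ W ⊓ LinearMap.ker φ} := by
      intro x hx
      induction hx using span_induction with
      | mem x hx =>
        obtain ⟨hxΛ, hxW⟩ := hx
        obtain ⟨m, hm⟩ := hφ x hxΛ hxW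
        apply subset_span
        rw [hT, hm]
        have e : c⁻¹ * (m * c) = (m : ℝ) := by field_simp
        rw [e]
        refine ⟨?_, ?_, ?_⟩
        · rw [Int.cast_smul_eq_zsmul, Int.cast_smul_eq_zsmul]
          exact sub_mem (zsmul_mem hxΛ _) (zsmul_mem hl _)
        · exact sub_mem (smul_mem _ _ hxW) (smul_mem _ _ hlW)
        · rw [SetLike.mem_coe, LinearMap.mem_ker, map_sub, map_smul, map_smul, hm, hk]
          simp only [smul_eq_mul]; ring
      | zero => simp
      | add x y _ _ hx hy => rw [map_add]; exact add_mem hx hy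
      | smul a x _ hx => rw [map_smul]; exact smul_mem _ _ hx
    intro x hx
    have h1 := hmap x (hW hx.1)
    have h2 : T x = (k : ℝ) • x := by
      rw [hT, LinearMap.mem_ker.mp hx.2]; simp
    rw [h2] at h1
    have := smul_mem _ ((k : ℝ)⁻¹) h1
    rwa [smul_smul, inv_mul_cancel₀ hk0, one_smul] at this

/-- Cutting by finitely many functionals. -/
theorem rat_finset (Λ : AddSubgroup V) (W : Submodule ℝ V)
    (hW : W ≤ span ℝ {x | x ∈ Λ ∧ x ∈ W}) (c : ℝ) (t : Finset V)
    (ht : ∀ e ∈ t, ∀ x ∈ Λ, x ∈ W → ∃ k : ℤ, ω x e = k * c) :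
    W ⊓ perp ω (span ℝ (t : Set V)) ≤ span ℝ {x | x ∈ Λ ∧ x ∈ W ⊓ perp ω (span ℝ (t : Set V))} := by
  classical
  induction t using Finset.induction_on with
  | empty =>
    have : perp ω (span ℝ ((∅ : Finset V) : Set V)) = ⊤ := by
      ext x
      simp [mem_perp]
    rw [this, inf_top_eq]
    exact hW
  | insert e t he ih =>
    have ih' := ih (fun e' he' => ht e' (Finset.mem_insert_of_mem he'))
    have key : W ⊓ perp ω (span ℝ ((insert e t : Finset V) : Set V)) =
        (W ⊓ perp ω (span ℝ (t : Set V))) ⊓ LinearMap.ker ((ω.flip e : V →L[ℝ] ℝ) : V →ₗ[ℝ] ℝ) := by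
      ext x
      simp only [mem_inf, mem_perp, LinearMap.mem_ker, ContinuousLinearMap.coe_coe,
        ContinuousLinearMap.flip_apply]
      constructor
      · rintro ⟨h1, h2⟩
        refine ⟨⟨h1, fun y hy => h2 y (span_mono ?_ hy)⟩, h2 e (subset_span (by simp))⟩
        intro z hz
        simp only [Finset.coe_insert]
        exact Set.mem_insert_of_mem _ hz
      · rintro ⟨⟨h1, h2⟩, h3⟩
        refine ⟨h1, fun y hy => ?_⟩
        induction hy using span_induction with
        | mem y hy =>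
          rw [Finset.coe_insert, Set.mem_insert_iff] at hy
          rcases hy with rfl | hy
          · exact h3
          · exact h2 y (subset_span hy)
        | zero => simp
        | add a b _ _ ha hb => rw [map_add, ha, hb, add_zero]
        | smul a b _ hb => rw [map_smul, hb, smul_zero]
    rw [key]
    apply rat_one Λ _ ih' _ c
    intro x hx hxW
    obtain ⟨k, hk⟩ := ht e (Finset.mem_insert_self _ _) x hx hxW.1
    exact ⟨k, by simpa using hk⟩

/-- Cutting by the orthogonal of a subspace spanned by points with integral pairings. -/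
theorem rat_perp [FiniteDimensional ℝ V] (Λ : AddSubgroup V) (W E : Submodule ℝ V)
    (hW : W ≤ span ℝ {x | x ∈ Λ ∧ x ∈ W}) (c : ℝ) (S : Set V) (hS : span ℝ S = E)
    (ht : ∀ e ∈ S, ∀ x ∈ Λ, x ∈ W → ∃ k : ℤ, ω x e = k * c) :
    W ⊓ perp ω E ≤ span ℝ {x | x ∈ Λ ∧ x ∈ W ⊓ perp ω E} := by
  obtain ⟨t, ht1, ht2⟩ := (fg_span_iff_fg_span_finset_subset (R := ℝ) S).mp
    (IsNoetherian.noetherian _)
  rw [← hS, ht2]
  exact rat_finset Λ W hW c t (fun e he => ht e (ht1 he))

theorem tilde_span [FiniteDimensional ℝ V] (hB : TwoStep B) (hΓ : Lattice B Γ) :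
    (⊤ : Submodule ℝ V) ≤ span ℝ {x | x ∈ tilde hB hΓ ∧ x ∈ (⊤ : Submodule ℝ V)} := by
  rw [← span_lattice hB hΓ]
  apply span_mono
  intro x hx
  exact ⟨mem_tilde hB hΓ hx, by rw [span_lattice hB hΓ]; exact mem_top⟩

/-- the commutator ideal is spanned by points of the lattice -/
theorem der_span [FiniteDimensional ℝ V] (hB : TwoStep B) (hΓ : Lattice B Γ) :
    span ℝ {x | x ∈ Γ ∧ x ∈ der B} = der B := by
  apply le_antisymm
  · apply span_le.mpr
    rintro x ⟨_, hx⟩
    exact hx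
  · apply span_le.mpr
    rintro _ ⟨⟨x, y⟩, rfl⟩
    have hx : x ∈ span ℝ Γ := by rw [span_lattice hB hΓ]; exact mem_top
    have hy : y ∈ span ℝ Γ := by rw [span_lattice hB hΓ]; exact mem_top
    change B x y ∈ span ℝ {x | x ∈ Γ ∧ x ∈ der B}
    induction hx using span_induction with
    | mem x hx =>
      induction hy using span_induction with
      | mem y hy => exact subset_span ⟨hΓ.comm_mem hB hx hy, mem_der _ _⟩
      | zero => simp
      | add y z _ _ hy hz => rw [map_add]; exact add_mem hy hz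
      | smul c y _ hy => rw [map_smul]; exact smul_mem _ _ hy
    | zero => simp
    | add x z _ _ hx hz => rw [map_add, add_apply]; exact add_mem hx hz
    | smul c x _ hx => rw [map_smul, smul_apply]; exact smul_mem _ _ hx

/-- The pairing with commuting lattice points is integral on `2π`. -/
def Areas (B : V →L[ℝ] V →L[ℝ] V) (ω : V →L[ℝ] V →L[ℝ] ℝ) (Γ : Set V) : Prop :=
  ∀ γ ∈ Γ, ∀ δ ∈ Γ, B γ δ = 0 → ∃ k : ℤ, ω γ δ = k * (2 * Real.pi)

/-- the orthogonal of the commutator ideal is spanned by points of the lattice -/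
theorem perp_der_span [FiniteDimensional ℝ V] (hB : TwoStep B) (hω : Symplectic B ω)
    (hΓ : Lattice B Γ) (hA : Areas B ω Γ) :
    perp ω (der B) ≤ span ℝ {x | x ∈ tilde hB hΓ ∧ x ∈ perp ω (der B)} := by
  have h := rat_perp (ω := ω) (tilde hB hΓ) ⊤ (der B) (tilde_span hB hΓ) (2 * Real.pi) _
    (der_span hB hΓ) ?_
  · simpa using h
  · rintro e ⟨heΓ, heD⟩ x ⟨γ, hγ, d, hd, hdd, rfl⟩ _
    obtain ⟨k, hk⟩ := hA γ hγ e heΓ (hB.der_right heD _)
    refine ⟨k, ?_⟩
    rw [map_add, map_smul, add_apply, smul_apply, hk, der_isotropic hB hω hdd heD]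
    simp

/-- a rational Lagrangian subspace between the commutator ideal and its orthogonal -/
theorem exists_lagrangian [FiniteDimensional ℝ V] (hB : TwoStep B) (hω : Symplectic B ω)
    (hΓ : Lattice B Γ) (hA : Areas B ω Γ) :
    ∃ L : Submodule ℝ V, der B ≤ L ∧ perp ω L = L ∧ span ℝ {x | x ∈ Γ ∧ x ∈ L} = L := by
  let S : Set (Submodule ℝ V) := {L | der B ≤ L ∧ L ≤ perp ω L ∧ span ℝ {x | x ∈ Γ ∧ x ∈ L} = L}
  have hne : S.Nonempty := ⟨der B, le_rfl, der_le_perp hB hω, der_span hB hΓ⟩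
  obtain ⟨L, ⟨hL1, hL2, hL3⟩, hmax⟩ :=
    (wellFounded_gt : WellFounded ((· > ·) : Submodule ℝ V → Submodule ℝ V → Prop)).has_min S hne
  refine ⟨L, hL1, le_antisymm ?_ hL2, hL3⟩
  by_contra hnot
  have hLa : L ≤ perp ω (der B) := fun x hx y hy => hL2 hx y (hL1 hy)
  have hpa : perp ω L ≤ perp ω (der B) := fun x hx y hy => hx y (hL1 hy)
  have h := rat_perp (ω := ω) (tilde hB hΓ) (perp ω (der B)) L (perp_der_span hB hω hΓ hA)
    Real.pi _ hL3 ?_
  · rw [inf_eq_right.mpr hpa] at h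
    obtain ⟨x, hxΛ, hxp, hxL⟩ : ∃ x, x ∈ tilde hB hΓ ∧ x ∈ perp ω L ∧ x ∉ L := by
      by_contra hcon
      push Not at hcon
      apply hnot
      refine h.trans (span_le.mpr ?_)
      rintro x ⟨hx1, hx2⟩
      exact hcon x hx1 hx2
    have hx2 : (2 : ℝ) • x ∈ Γ := two_mem_of_tilde hB hΓ hxΛ
    have hx2p : (2 : ℝ) • x ∈ perp ω L := smul_mem _ _ hxp
    have hx2L : (2 : ℝ) • x ∉ L := fun h => hxL (by
      have := smul_mem L (1 / 2 : ℝ) h
      rwa [smul_smul, show (1 / 2 : ℝ) * 2 = 1 by norm_num, one_smul] at this)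
    have hmem : L ⊔ span ℝ {(2 : ℝ) • x} ∈ S := by
      refine ⟨hL1.trans le_sup_left, ?_, ?_⟩
      · intro u hu v hv
        obtain ⟨u1, hu1, u2, hu2, rfl⟩ := mem_sup.mp hu
        obtain ⟨v1, hv1, v2, hv2, rfl⟩ := mem_sup.mp hv
        obtain ⟨a, rfl⟩ := mem_span_singleton.mp hu2
        obtain ⟨b, rfl⟩ := mem_span_singleton.mp hv2
        have e1 : ω u1 v1 = 0 := hL2 hu1 _ hv1
        have e2 : ω ((2 : ℝ) • x) v1 = 0 := hx2p _ hv1
        have e3 : ω u1 ((2 : ℝ) • x) = 0 := by rw [hω.skew, hx2p _ hu1, neg_zero]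
        have e4 : ω ((2 : ℝ) • x) ((2 : ℝ) • x) = 0 := hω.alt _
        simp only [map_add, map_smul ω a, map_smul _ b, add_apply, smul_apply, e1, e2, e3, e4]
        simp
      · apply le_antisymm
        · apply span_le.mpr
          rintro y ⟨_, hy⟩
          exact hy
        · apply sup_le
          · conv_lhs => rw [← hL3]
            apply span_mono
            rintro y ⟨hy1, hy2⟩
            exact ⟨hy1, mem_sup_left hy2⟩
          · apply span_le.mpr
            rintro y rfl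
            exact subset_span ⟨hx2, mem_sup_right (mem_span_singleton_self _)⟩
    apply hmax _ hmem
    exact lt_of_le_of_ne le_sup_left (fun he => hx2L (by
      rw [he]; exact mem_sup_right (mem_span_singleton_self _)))
  · rintro e ⟨heΓ, heL⟩ x hx hxa
    obtain ⟨k, hk⟩ := hA _ (two_mem_of_tilde hB hΓ hx) e heΓ (by
      rw [map_smul, smul_apply, abelian_perp hB hω hxa (hLa heL), smul_zero])
    refine ⟨k, ?_⟩
    rw [map_smul, smul_apply, smul_eq_mul] at hk
    linarith

end Pool.Agent.W_f4b591
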