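import Mathlib
import Pool.Agent.W_f4b591.Rat

namespace Pool.Agent.W_f4b591

open Module Submodule

variable {V : Type*} [NormedAddCommGroup V] [NormedSpace ℝ V]
  {B : V →L[ℝ] V →L[ℝ] V} {ω : V →L[ℝ] V →L[ℝ] ℝ} {Γ : Set V}

theorem finrank_lagrangian [FiniteDimensional ℝ V] (hω : Symplectic B ω) {n : ℕ}
    (hdim : finrank ℝ V = 2 * n) (L : Submodule ℝ V) (hL : perp ω L = L) : finrank ℝ L = n := by
  let b : LinearMap.BilinForm ℝ V := LinearMap.mk₂ ℝ (fun x y => ω x y)
    (by intros; simp) (by intros; simp) (by intros; simp) (by intros; simp)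
  have hb : b.Nondegenerate := by
    constructor
    · intro x hx
      exact hω.nondeg x hx
    · intro x hx
      apply hω.nondeg x
      intro y
      rw [hω.skew]
      exact neg_eq_zero.mpr (hx y)
  have h := LinearMap.BilinForm.finrank_orthogonal hb L
  have e : b.orthogonal L = L := by
    conv_rhs => rw [← hL]
    ext x
    rw [LinearMap.BilinForm.mem_orthogonal_iff, mem_perp]
    constructor
    · intro h y hy
      rw [hω.skew]
      exact neg_eq_zero.mpr (h y hy)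
    · intro h y hy
      change ω y x = 0
      rw [hω.skew, h y hy, neg_zero]
  rw [e] at h
  have := Submodule.finrank_le L
  omega

/-- the lattice points of a subspace orthogonal to the commutator ideal form an additive group -/
def latt (hB : TwoStep B) (hω : Symplectic B ω) (hΓ : Lattice B Γ) (L : Submodule ℝ V)
    (hLa : L ≤ perp ω (der B)) : AddSubgroup V where
  carrier := {x | x ∈ Γ ∧ x ∈ L}
  zero_mem' := ⟨hΓ.zero_mem, zero_mem _⟩
  add_mem' := by
    rintro a b ⟨ha, ha'⟩ ⟨hb, hb'⟩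
    exact ⟨hΓ.add_mem hB ha hb (abelian_perp hB hω (hLa ha') (hLa hb')), add_mem ha' hb'⟩
  neg_mem' := by
    rintro a ⟨ha, ha'⟩
    exact ⟨hΓ.neg_mem _ ha, neg_mem ha'⟩

theorem exists_basis [FiniteDimensional ℝ V] (hB : TwoStep B) (hω : Symplectic B ω)
    (hΓ : Lattice B Γ) (hA : Areas B ω Γ) {n : ℕ} (hdim : finrank ℝ V = 2 * n) :
    ∃ (L : Submodule ℝ V) (l : Fin n → V) (J : Set (Fin n)), der B ≤ L ∧ perp ω L = L ∧
      (∀ j, l j ∈ Γ) ∧ (∀ j, l j ∈ L) ∧ LinearIndependent ℝ l ∧ span ℝ (Set.range l) = L ∧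
      (∀ x ∈ Γ, x ∈ L → ∃ k : Fin n → ℤ, x = ∑ j, (k j : ℝ) • l j) ∧
      (∀ j ∈ J, l j ∈ der B) ∧ der B ≤ span ℝ (l '' J) := by
  obtain ⟨L, hDL, hLL, hLs⟩ := exists_lagrangian hB hω hΓ hA
  have hLa : L ≤ perp ω (der B) := by
    intro x hx y hy
    rw [← hLL] at hx
    exact hx y (hDL hy)
  have hn : finrank ℝ L = n := finrank_lagrangian hω hdim L hLL
  let N : Submodule ℤ V := (latt hB hω hΓ L hLa).toIntSubmodule
  have hN : ∀ x, x ∈ N ↔ x ∈ Γ ∧ x ∈ L := fun x => Iff.rfl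
  have hdisc : DiscreteTopology N := by
    rw [discreteTopology_iff_isOpen_singleton_zero, Metric.isOpen_singleton_iff]
    obtain ⟨ε, hε, h⟩ := hΓ.discrete
    refine ⟨ε, hε, fun y hy => ?_⟩
    rw [dist_zero_right] at hy
    exact Subtype.ext (h y.1 ((hN _).mp y.2).1 hy)
  have hspanN : span ℝ (N : Set V) = L := hLs
  have hrank : finrank ℤ N = n := by
    have h := Real.finrank_eq_int_finrank_of_discrete (E := V) (s := (N : Set V))
      (by rw [span_eq]; exact hdisc)
    rw [Set.finrank, Set.finrank, span_eq, hspanN, hn] at h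
    exact h.symm
  let b0 : Basis (Fin n) ℤ N := (Module.finBasis ℤ N).reindex (finCongr hrank)
  let P : Submodule ℤ N := (latt hB hω hΓ (der B) (der_le_perp hB hω)).toIntSubmodule.comap N.subtype
  have hP : ∀ x : N, x ∈ P ↔ (x : V) ∈ Γ ∧ (x : V) ∈ der B := fun x => Iff.rfl
  obtain ⟨r, snf⟩ := P.smithNormalForm b0
  let l : Fin n → V := fun j => (snf.bM j : V)
  have hl : ∀ j, l j ∈ Γ ∧ l j ∈ L := fun j => (hN _).mp (snf.bM j).2
  have hZ : ∀ x ∈ Γ, x ∈ L → ∃ k : Fin n → ℤ, x = ∑ j, (k j : ℝ) • l j := by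
    intro x hx hxL
    let x' : N := ⟨x, (hN x).mpr ⟨hx, hxL⟩⟩
    refine ⟨fun j => snf.bM.repr x' j, ?_⟩
    have h := congrArg (fun y : N => (y : V)) (snf.bM.sum_repr x')
    simp only [AddSubmonoidClass.coe_finset_sum, Submodule.coe_smul_of_tower] at h
    refine (h.symm.trans ?_ : x = _)
    apply Finset.sum_congr rfl
    intro j _
    rw [Int.cast_smul_eq_zsmul]
  have hspan : span ℝ (Set.range l) = L := by
    apply le_antisymm
    · apply span_le.mpr
      rintro _ ⟨j, rfl⟩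
      exact (hl j).2
    · rw [← hLs]
      apply span_le.mpr
      rintro x ⟨hx, hxL⟩
      obtain ⟨k, rfl⟩ := hZ x hx hxL
      exact sum_mem (fun j _ => smul_mem _ _ (subset_span ⟨j, rfl⟩))
  have hli : LinearIndependent ℝ l := by
    rw [linearIndependent_iff_card_eq_finrank_span, Set.finrank, hspan, hn, Fintype.card_fin]
  refine ⟨L, l, Set.range snf.f, hDL, hLL, fun j => (hl j).1, fun j => (hl j).2, hli, hspan, hZ,
    ?_, ?_⟩
  · rintro _ ⟨i, rfl⟩
    have h1 := congrArg (fun y : N => (y : V)) (snf.snf i)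
    have h2 := ((hP _).mp (snf.bN i).2).2
    have ha : snf.a i ≠ 0 := by
      intro h0
      have := snf.snf i
      rw [h0, zero_smul] at this
      exact snf.bN.ne_zero i (Subtype.ext this)
    have ha' : ((snf.a i : ℤ) : ℝ) ≠ 0 := by exact_mod_cast ha
    simp only [Submodule.coe_smul_of_tower] at h1
    rw [h1, ← Int.cast_smul_eq_zsmul ℝ] at h2
    have := smul_mem _ ((snf.a i : ℝ)⁻¹) h2
    rwa [smul_smul, inv_mul_cancel₀ ha', one_smul] at this
  · rw [← der_span hB hΓ]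
    apply span_le.mpr
    rintro x ⟨hx, hxD⟩
    let x' : N := ⟨x, (hN x).mpr ⟨hx, hDL hxD⟩⟩
    let x'' : P := ⟨x', (hP x').mpr ⟨hx, hxD⟩⟩
    have h := congrArg (fun y : P => ((y : N) : V)) (snf.bN.sum_repr x'')
    simp only [AddSubmonoidClass.coe_finset_sum, Submodule.coe_smul_of_tower] at h
    have hx' : x = ∑ i, (snf.bN.repr x'' i : ℤ) • ((snf.bN i : N) : V) := h.symm
    rw [hx']
    refine sum_mem (fun i _ => ?_)
    have h1 := congrArg (fun y : N => (y : V)) (snf.snf i)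
    simp only [Submodule.coe_smul_of_tower] at h1
    rw [h1, ← Int.cast_smul_eq_zsmul ℝ, ← Int.cast_smul_eq_zsmul ℝ]
    exact smul_mem _ _ (smul_mem _ _ (subset_span ⟨_, ⟨i, rfl⟩, rfl⟩))

end Pool.Agent.W_f4b591
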