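import Mathlib
import Pool.Agent.W_f4b591.Bas

namespace Pool.Agent.W_f4b591

open Module Submodule

variable {V : Type*} [NormedAddCommGroup V] [NormedSpace ℝ V]
  {B : V →L[ℝ] V →L[ℝ] V} {ω : V →L[ℝ] V →L[ℝ] ℝ} {Γ : Set V}

/-! ### facts on a Lagrangian subspace above the commutator ideal -/

section lag

variable {L : Submodule ℝ V}

theorem lag_iso (hLL : perp ω L = L) {x y : V} (hx : x ∈ L) (hy : y ∈ L) : ω x y = 0 := by
  rw [← hLL] at hx
  exact hx y hy

theorem lag_le (hDL : der B ≤ L) (hLL : perp ω L = L) : L ≤ perp ω (der B) :=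
  fun _ hx _ hy => lag_iso hLL hx (hDL hy)

theorem lag_comm (hB : TwoStep B) (hω : Symplectic B ω) (hDL : der B ≤ L) (hLL : perp ω L = L)
    {x y : V} (hx : x ∈ L) (hy : y ∈ L) : B x y = 0 :=
  abelian_perp hB hω (lag_le hDL hLL hx) (lag_le hDL hLL hy)

theorem lag_sym (hω : Symplectic B ω) (hDL : der B ≤ L) (hLL : perp ω L = L) (hB : TwoStep B)
    {l : V} (hl : l ∈ L) (u v : V) : ω u (B v l) = ω v (B u l) := by
  have h := hω.closed u v l
  rw [lag_iso hLL (hDL (mem_der u v)) hl, hω.skew (B v l) u, hω.skew (B l u) v, hB.skew l u,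
    map_neg] at h
  linarith

end lag

/-- the algebraic identity behind the symplectic property of the chart -/
theorem core_alg (hB : TwoStep B) (hω : Symplectic B ω) {L : Submodule ℝ V} (hDL : der B ≤ L)
    (hLL : perp ω L = L) {p a b s ta tb sa sb : V} (hs : s ∈ L) (hta : ta ∈ L) (htb : tb ∈ L)
    (hsa : sa ∈ L) (hsb : sb ∈ L)
    (h1 : ω a sb = (1 / 2) * ω b a - (1 / 6) * (ω b (B p a) + ω p (B b a)))
    (h2 : ω b sa = (1 / 2) * ω a b - (1 / 6) * (ω a (B p b) + ω p (B a b))) :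
    ω ((ta - B p ta) + (sa + B a s) + a - (1 / 2 : ℝ) • B p a)
      ((tb - B p tb) + (sb + B b s) + b - (1 / 2 : ℝ) • B p b) =
    ω a (tb - B p tb) - ω b (ta - B p ta) := by
  have D : ∀ x y, B x y ∈ L := fun x y => hDL (mem_der x y)
  have hA : (ta - B p ta) + (sa + B a s) ∈ L :=
    add_mem (sub_mem hta (D _ _)) (add_mem hsa (D _ _))
  have hA' : (tb - B p tb) + (sb + B b s) ∈ L :=
    add_mem (sub_mem htb (D _ _)) (add_mem hsb (D _ _))
  have e1 : ω ((ta - B p ta) + (sa + B a s) + a - (1 / 2 : ℝ) • B p a)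
      ((tb - B p tb) + (sb + B b s) + b - (1 / 2 : ℝ) • B p b) =
      ω a ((tb - B p tb) + (sb + B b s)) - ω b ((ta - B p ta) + (sa + B a s)) +
      (ω a b - (1 / 2) * ω a (B p b) + (1 / 2) * ω b (B p a)) := by
    generalize hAe : (ta - B p ta) + (sa + B a s) = A at hA ⊢
    generalize hAe' : (tb - B p tb) + (sb + B b s) = A' at hA' ⊢
    have z1 := lag_iso hLL hA hA'
    have z2 := lag_iso hLL hA (D p b)
    have z3 := lag_iso hLL (D p a) hA'
    have z4 := lag_iso hLL (D p a) (D p b)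
    have z5 := hω.skew A b
    have z6 := hω.skew (B p a) b
    simp only [map_add, map_sub, map_smul, add_apply, sub_apply, smul_apply, smul_eq_mul, z1, z2,
      z3, z4, z5, z6]
    ring
  rw [e1]
  have s1 := lag_sym hω hDL hLL hB hs a b
  have c := hω.closed p a b
  have c1 := hω.skew (B p a) b
  have c2 := hω.skew (B a b) p
  have c3 : ω (B b p) a = ω a (B p b) := by
    rw [hω.skew, hB.skew b p, map_neg, neg_neg]
  have c4 : ω p (B b a) = - ω p (B a b) := by rw [hB.skew b a, map_neg]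
  have c5 := hω.skew b a
  simp only [map_add, map_sub] at h1 h2 ⊢
  rw [h1, h2, s1]
  rw [c1, c2, c3] at c
  rw [c4, c5]
  linarith

end Pool.Agent.W_f4b591
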