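import Mathlib
import Pool.Agent.W_f4b591.Chart

namespace Pool.Agent.W_f4b591

open Module Submodule

variable {V : Type*} [NormedAddCommGroup V] [NormedSpace ℝ V]
  {B : V →L[ℝ] V →L[ℝ] V} {ω : V →L[ℝ] V →L[ℝ] ℝ} {Γ : Set V}

section Der

variable {W E E₁ E₂ : Type*} [NormedAddCommGroup W] [NormedSpace ℝ W]
  [NormedAddCommGroup E] [NormedSpace ℝ E] [NormedAddCommGroup E₁] [NormedSpace ℝ E₁]
  [NormedAddCommGroup E₂] [NormedSpace ℝ E₂]

/-- `f` is differentiable at `z` with derivative `u ↦ g u` -/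
def Der (f : W → E) (z : W) (g : W → E) : Prop :=
  ∃ f' : W →L[ℝ] E, HasFDerivAt f f' z ∧ ∀ u, f' u = g u

theorem Der.add {f₁ f₂ : W → E} {z : W} {g₁ g₂ : W → E} (h₁ : Der f₁ z g₁) (h₂ : Der f₂ z g₂) :
    Der (fun w => f₁ w + f₂ w) z (fun u => g₁ u + g₂ u) := by
  obtain ⟨a, ha, ha'⟩ := h₁
  obtain ⟨b, hb, hb'⟩ := h₂
  exact ⟨a + b, ha.add hb, fun u => by simp [ha', hb']⟩

theorem Der.sub {f₁ f₂ : W → E} {z : W} {g₁ g₂ : W → E} (h₁ : Der f₁ z g₁) (h₂ : Der f₂ z g₂) :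
    Der (fun w => f₁ w - f₂ w) z (fun u => g₁ u - g₂ u) := by
  obtain ⟨a, ha, ha'⟩ := h₁
  obtain ⟨b, hb, hb'⟩ := h₂
  exact ⟨a - b, ha.sub hb, fun u => by simp [ha', hb']⟩

theorem Der.sum {ι : Type*} [Fintype ι] {f : ι → W → E} {z : W} {g : ι → W → E}
    (h : ∀ i, Der (f i) z (g i)) :
    Der (fun w => ∑ i, f i w) z (fun u => ∑ i, g i u) := by
  choose a ha ha' using h
  refine ⟨∑ i, a i, HasFDerivAt.fun_sum (fun i _ => ha i), fun u => ?_⟩
  simp [ha']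

theorem Der.lin {f : W → E₁} {z : W} {g : W → E₁} (h : Der f z g) (C : E₁ →L[ℝ] E) :
    Der (fun w => C (f w)) z (fun u => C (g u)) := by
  obtain ⟨a, ha, ha'⟩ := h
  exact ⟨C.comp a, C.hasFDerivAt.comp z ha, fun u => by simp [ha']⟩

theorem Der.bil {f₁ : W → E₁} {f₂ : W → E₂} {z : W} {g₁ : W → E₁} {g₂ : W → E₂}
    (h₁ : Der f₁ z g₁) (h₂ : Der f₂ z g₂) (C : E₁ →L[ℝ] E₂ →L[ℝ] E) :
    Der (fun w => C (f₁ w) (f₂ w)) z (fun u => C (g₁ u) (f₂ z) + C (f₁ z) (g₂ u)) := by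
  obtain ⟨a, ha, ha'⟩ := h₁
  obtain ⟨b, hb, hb'⟩ := h₂
  refine ⟨_, C.hasFDerivAt_of_bilinear ha hb, fun u => ?_⟩
  simp [ha', hb', add_comm]

theorem Der.smulc {f : W → ℝ} {z : W} {g : W → ℝ} (h : Der f z g) (v : E) :
    Der (fun w => f w • v) z (fun u => g u • v) := by
  obtain ⟨a, ha, ha'⟩ := h
  exact ⟨a.smulRight v, ha.smul_const v, fun u => by simp [ha']⟩

theorem Der.cmul {f : W → E} {z : W} {g : W → E} (c : ℝ) (h : Der f z g) :
    Der (fun w => c • f w) z (fun u => c • g u) := by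
  obtain ⟨a, ha, ha'⟩ := h
  exact ⟨c • a, ha.const_smul c, fun u => by simp [ha']⟩

theorem Der.congr {f : W → E} {z : W} {g g' : W → E} (h : Der f z g) (e : ∀ u, g u = g' u) :
    Der f z g' := by
  obtain ⟨a, ha, ha'⟩ := h
  exact ⟨a, ha, fun u => by rw [ha', e]⟩

end Der

/-! ### the chart -/

section chart

variable {n : ℕ}

/-- `x ↦ ∑ x_j l_j` -/
noncomputable def lin (l : Fin n → V) : (Fin n → ℝ) →L[ℝ] V :=
  ∑ j, (ContinuousLinearMap.proj j : (Fin n → ℝ) →L[ℝ] ℝ).smulRight (l j)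

theorem lin_apply (l : Fin n → V) (x : Fin n → ℝ) : lin l x = ∑ j, x j • l j := by
  simp [lin]

open Classical in
/-- the vectors with index in `J`, the others replaced by zero -/
noncomputable def cut (J : Set (Fin n)) (m : Fin n → V) : Fin n → V :=
  fun j => if j ∈ J then m j else 0

/-- the quadratic part of the coordinates -/
noncomputable def quad (B : V →L[ℝ] V →L[ℝ] V) (ω : V →L[ℝ] V →L[ℝ] ℝ) (l m : Fin n → V)
    (J : Set (Fin n)) (x : Fin n → ℝ) (j : Fin n) : ℝ :=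
  (1 / 2 : ℝ) * ω (lin (cut J m) x) (B (lin (cut J m) x) (l j))

/-- the base point with affine coordinates `x` -/
noncomputable def bpt (B : V →L[ℝ] V →L[ℝ] V) (ω : V →L[ℝ] V →L[ℝ] ℝ) (l m : Fin n → V)
    (J : Set (Fin n)) (x : Fin n → ℝ) : V :=
  lin m x + ∑ j, quad B ω l m J x j • m j

/-- the potential -/
noncomputable def pot (B : V →L[ℝ] V →L[ℝ] V) (ω : V →L[ℝ] V →L[ℝ] ℝ) (p w : V) : ℝ :=
  (1 / 2 : ℝ) * ω p w - (1 / 6 : ℝ) * ω p (B p w)

/-- the shift in the fibre -/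
noncomputable def shf (B : V →L[ℝ] V →L[ℝ] V) (ω : V →L[ℝ] V →L[ℝ] ℝ) (l m : Fin n → V)
    (p : V) : V :=
  ∑ i, pot B ω p (m i) • l i

/-- the fibre part of the chart -/
noncomputable def fib (B : V →L[ℝ] V →L[ℝ] V) (ω : V →L[ℝ] V →L[ℝ] ℝ) (l m : Fin n → V)
    (p : V) (t : Fin n → ℝ) : V :=
  lin l t + shf B ω l m p + B p (shf B ω l m p)

/-- the chart -/
noncomputable def chart (B : V →L[ℝ] V →L[ℝ] V) (ω : V →L[ℝ] V →L[ℝ] ℝ) (l m : Fin n → V)
    (J : Set (Fin n)) (x t : Fin n → ℝ) : V :=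
  mul B (fib B ω l m (bpt B ω l m J x) t) (bpt B ω l m J x)

/-- derivative of the base point -/
noncomputable def dbpt (B : V →L[ℝ] V →L[ℝ] V) (ω : V →L[ℝ] V →L[ℝ] ℝ) (l m : Fin n → V)
    (J : Set (Fin n)) (x a : Fin n → ℝ) : V :=
  lin m a + ∑ j, ((1 / 2 : ℝ) * (ω (lin (cut J m) a) (B (lin (cut J m) x) (l j)) +
    ω (lin (cut J m) x) (B (lin (cut J m) a) (l j)))) • m j

/-- derivative of the shift -/
noncomputable def dshf (B : V →L[ℝ] V →L[ℝ] V) (ω : V →L[ℝ] V →L[ℝ] ℝ) (l m : Fin n → V)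
    (p a : V) : V :=
  ∑ i, ((1 / 2 : ℝ) * ω a (m i) - (1 / 6 : ℝ) * (ω a (B p (m i)) + ω p (B a (m i)))) • l i

variable {W : Type*} [NormedAddCommGroup W] [NormedSpace ℝ W]

theorem der_bpt (l m : Fin n → V) (J : Set (Fin n)) {x : W → Fin n → ℝ} {z : W}
    {x' : W → Fin n → ℝ} (hx : Der x z x') :
    Der (fun w => bpt B ω l m J (x w)) z (fun u => dbpt B ω l m J (x z) (x' u)) := by
  refine Der.add (hx.lin (lin m)) (Der.sum fun j => Der.smulc ?_ (m j))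
  have h0 := hx.lin (lin (cut J m))
  have h1 := h0.bil (h0.lin (B.flip (l j))) ω
  exact (h1.cmul (1 / 2)).congr (fun u => by simp)

theorem der_shf (l m : Fin n → V) {p : W → V} {z : W} {p' : W → V} (hp : Der p z p') :
    Der (fun w => shf B ω l m (p w)) z (fun u => dshf B ω l m (p z) (p' u)) := by
  refine Der.sum fun i => Der.smulc ?_ (l i)
  have h0 := hp.lin (ω.flip (m i))
  have h1 := hp.bil (hp.lin (B.flip (m i))) ω
  exact ((h0.cmul (1 / 2)).sub (h1.cmul (1 / 6))).congr (fun u => by simp)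

theorem der_chart (l m : Fin n → V) (J : Set (Fin n)) {x t : W → Fin n → ℝ} {z : W}
    {x' t' : W → Fin n → ℝ} (hx : Der x z x') (ht : Der t z t') :
    Der (fun w => chart B ω l m J (x w) (t w)) z (fun u =>
      let p := bpt B ω l m J (x z)
      let a := dbpt B ω l m J (x z) (x' u)
      let s := shf B ω l m p
      let s' := dshf B ω l m p a
      let f := fib B ω l m p (t z)
      let f' := lin l (t' u) + s' + (B a s + B p s')
      f' + a + (1 / 2 : ℝ) • (B f' p + B f a)) := by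
  have hp := der_bpt (B := B) (ω := ω) l m J hx
  have hs := der_shf (B := B) (ω := ω) l m hp
  have hf := ((ht.lin (lin l)).add hs).add (hp.bil hs B)
  exact (hf.add hp).add ((hf.bil hp B).cmul (1 / 2))

end chart

end Pool.Agent.W_f4b591
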