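import Mathlib
import Pool.Agent.W_f4b591.Der

/-!
# The area preserving map from the disc of radius `√2` onto the rectangle `(0, 2π) × (0, 1)`
-/

namespace Pool.Agent.W_f4b591

open scoped ContDiff

/-- first coordinate -/
noncomputable def dX (z : ℂ) : ℝ :=
  Real.pi + z.re * Real.sqrt (2 - z.re ^ 2) + 2 * Real.arcsin (z.re / Real.sqrt 2)

/-- second coordinate -/
noncomputable def dT (z : ℂ) : ℝ := 1 / 2 + z.im / (2 * Real.sqrt (2 - z.re ^ 2))

theorem sq_lt_two {z : ℂ} (h : ‖z‖ < Real.sqrt 2) : z.re ^ 2 + z.im ^ 2 < 2 := by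
  have h1 : ‖z‖ ^ 2 = z.re ^ 2 + z.im ^ 2 := by
    rw [← Complex.normSq_eq_norm_sq, Complex.normSq_apply]; ring
  rw [← h1]
  have := Real.sq_sqrt (show (0 : ℝ) ≤ 2 by norm_num)
  nlinarith [norm_nonneg z, Real.sqrt_nonneg 2]

theorem ratio_bounds {p : ℝ} (h : p ^ 2 < 2) : -1 < p / Real.sqrt 2 ∧ p / Real.sqrt 2 < 1 := by
  have h2 : 0 < Real.sqrt 2 := by positivity
  have hs := Real.sq_sqrt (show (0 : ℝ) ≤ 2 by norm_num)
  constructor
  · rw [lt_div_iff₀ h2]; nlinarith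
  · rw [div_lt_iff₀ h2]; nlinarith

/-- In the angle `a = 2 arcsin (p / √2)` the first coordinate is `π + a + sin a`. -/
theorem dX_angle {p : ℝ} (h : p ^ 2 < 2) :
    p * Real.sqrt (2 - p ^ 2) + 2 * Real.arcsin (p / Real.sqrt 2) =
      Real.sin (2 * Real.arcsin (p / Real.sqrt 2)) + 2 * Real.arcsin (p / Real.sqrt 2) := by
  obtain ⟨h1, h2⟩ := ratio_bounds h
  have hs := Real.sq_sqrt (show (0 : ℝ) ≤ 2 by norm_num)
  rw [Real.sin_two_mul, Real.sin_arcsin h1.le h2.le, Real.cos_arcsin]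
  congr 1
  have e : 2 - p ^ 2 = 2 * (1 - (p / Real.sqrt 2) ^ 2) := by
    rw [div_pow, hs]; ring
  rw [e, Real.sqrt_mul (by norm_num)]
  field_simp
  rw [hs]
  ring

theorem angle_bounds {p : ℝ} (h : p ^ 2 < 2) :
    -Real.pi < 2 * Real.arcsin (p / Real.sqrt 2) ∧ 2 * Real.arcsin (p / Real.sqrt 2) < Real.pi := by
  obtain ⟨h1, h2⟩ := ratio_bounds h
  have a1 := Real.neg_pi_div_two_lt_arcsin.mpr h1
  have a2 := Real.arcsin_lt_pi_div_two.mpr h2
  constructor <;> linarith

theorem add_sin_lt {a : ℝ} (h : a < Real.pi) : Real.sin a + a < Real.pi := by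
  have := Real.sin_lt (x := Real.pi - a) (by linarith)
  rw [Real.sin_pi_sub] at this
  linarith

theorem lt_add_sin {a : ℝ} (h : -Real.pi < a) : -Real.pi < Real.sin a + a := by
  have := add_sin_lt (a := -a) (by linarith)
  rw [Real.sin_neg] at this
  linarith

theorem abs_sin_lt_abs {y : ℝ} (h : y ≠ 0) : |Real.sin y| < |y| := by
  rcases lt_or_gt_of_ne h with h | h
  · have h1 := Real.lt_sin h
    have h2 : Real.sin y < -y := by
      rcases le_or_gt (-Real.pi) y with h3 | h3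
      · have := Real.sin_nonpos_of_nonpos_of_neg_pi_le h.le h3
        linarith
      · have := Real.sin_le_one y
        have := Real.pi_gt_three
        linarith
    rw [abs_of_neg h, abs_lt]
    constructor <;> linarith
  · have h1 := Real.sin_lt h
    have h2 : -y < Real.sin y := by
      rcases le_or_gt y Real.pi with h3 | h3
      · have := Real.sin_nonneg_of_nonneg_of_le_pi h.le h3
        linarith
      · have := Real.neg_one_le_sin y
        have := Real.pi_gt_three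
        linarith
    rw [abs_of_pos h, abs_lt]
    constructor <;> linarith

theorem add_sin_inj {a b : ℝ} (h : Real.sin a + a = Real.sin b + b) : a = b := by
  by_contra hne
  have h1 : Real.sin a - Real.sin b = b - a := by linarith
  rw [Real.sin_sub_sin] at h1
  have hy : (a - b) / 2 ≠ 0 := by
    intro h0; apply hne; linarith
  have h2 := abs_sin_lt_abs hy
  have h3 := congrArg abs h1
  rw [abs_mul, abs_mul, abs_two, abs_sub_comm b a] at h3
  have h4 : |(a - b) / 2| = |a - b| / 2 := by rw [abs_div, abs_two]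
  have h5 := Real.abs_cos_le_one ((a + b) / 2)
  have h6 : 0 < |a - b| := abs_pos.mpr (sub_ne_zero.mpr hne)
  rw [h4] at h2
  nlinarith [abs_nonneg (Real.sin ((a - b) / 2)), abs_nonneg (Real.cos ((a + b) / 2))]

theorem dX_mem {z : ℂ} (h : ‖z‖ < Real.sqrt 2) : 0 < dX z ∧ dX z < 2 * Real.pi := by
  have h1 : z.re ^ 2 < 2 := by nlinarith [sq_lt_two h, sq_nonneg z.im]
  obtain ⟨a1, a2⟩ := angle_bounds h1
  have e : dX z = Real.pi + (Real.sin (2 * Real.arcsin (z.re / Real.sqrt 2)) +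
      2 * Real.arcsin (z.re / Real.sqrt 2)) := by
    rw [dX, add_assoc, dX_angle h1]
  rw [e]
  have b1 := add_sin_lt a2
  have b2 := lt_add_sin a1
  constructor <;> linarith

theorem dT_mem {z : ℂ} (h : ‖z‖ < Real.sqrt 2) : 0 < dT z ∧ dT z < 1 := by
  have h1 := sq_lt_two h
  have h0 : 0 < 2 - z.re ^ 2 := by nlinarith [sq_nonneg z.im]
  have hs : 0 < Real.sqrt (2 - z.re ^ 2) := Real.sqrt_pos.mpr h0
  have hq := Real.sq_sqrt h0.le
  have h2 : -Real.sqrt (2 - z.re ^ 2) < z.im := by nlinarith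
  have h3 : z.im < Real.sqrt (2 - z.re ^ 2) := by nlinarith
  have h4 : -(1 / 2 : ℝ) < z.im / (2 * Real.sqrt (2 - z.re ^ 2)) := by
    rw [lt_div_iff₀ (by positivity)]; linarith
  have h5 : z.im / (2 * Real.sqrt (2 - z.re ^ 2)) < 1 / 2 := by
    rw [div_lt_iff₀ (by positivity)]; linarith
  rw [dT]
  constructor <;> linarith

theorem disc_inj {z w : ℂ} (hz : ‖z‖ < Real.sqrt 2) (hw : ‖w‖ < Real.sqrt 2)
    (hX : dX z = dX w) (hT : dT z = dT w) : z = w := by
  have h1 : z.re ^ 2 < 2 := by nlinarith [sq_lt_two hz, sq_nonneg z.im]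
  have h2 : w.re ^ 2 < 2 := by nlinarith [sq_lt_two hw, sq_nonneg w.im]
  have hre : z.re = w.re := by
    rw [dX, dX, add_assoc, add_assoc, dX_angle h1, dX_angle h2] at hX
    have h3 := add_sin_inj (add_left_cancel hX)
    have h4 : Real.arcsin (z.re / Real.sqrt 2) = Real.arcsin (w.re / Real.sqrt 2) := by linarith
    obtain ⟨a1, a2⟩ := ratio_bounds h1
    obtain ⟨b1, b2⟩ := ratio_bounds h2
    have h5 := congrArg Real.sin h4
    rw [Real.sin_arcsin a1.le a2.le, Real.sin_arcsin b1.le b2.le] at h5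
    have h6 : Real.sqrt 2 ≠ 0 := by positivity
    field_simp at h5
    exact h5
  have him : z.im = w.im := by
    rw [dT, dT, hre] at hT
    have h3 := add_left_cancel hT
    have h4 : 2 * Real.sqrt (2 - w.re ^ 2) ≠ 0 := by
      have : 0 < Real.sqrt (2 - w.re ^ 2) := Real.sqrt_pos.mpr (by linarith)
      positivity
    exact (div_left_inj' h4).mp h3
  exact Complex.ext hre him

theorem contDiffAt_dX {z : ℂ} (h : ‖z‖ < Real.sqrt 2) : ContDiffAt ℝ ∞ dX z := by
  have h1 : z.re ^ 2 < 2 := by nlinarith [sq_lt_two h, sq_nonneg z.im]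
  obtain ⟨a1, a2⟩ := ratio_bounds h1
  have hre : ContDiffAt ℝ ∞ (fun z : ℂ => z.re) z := Complex.reCLM.contDiff.contDiffAt
  unfold dX
  refine (contDiffAt_const.add (hre.mul ((contDiffAt_const.sub (hre.pow 2)).sqrt ?_))).add
    (contDiffAt_const.mul ?_)
  · linarith
  · exact ContDiffAt.comp (g := Real.arcsin) (f := fun z : ℂ => z.re / Real.sqrt 2) z
      (Real.contDiffAt_arcsin a1.ne' a2.ne) (hre.div_const _)

theorem contDiffAt_dT {z : ℂ} (h : ‖z‖ < Real.sqrt 2) : ContDiffAt ℝ ∞ dT z := by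
  have h1 : z.re ^ 2 < 2 := by nlinarith [sq_lt_two h, sq_nonneg z.im]
  have hre : ContDiffAt ℝ ∞ (fun z : ℂ => z.re) z := Complex.reCLM.contDiff.contDiffAt
  have him : ContDiffAt ℝ ∞ (fun z : ℂ => z.im) z := Complex.imCLM.contDiff.contDiffAt
  have hs : 0 < Real.sqrt (2 - z.re ^ 2) := Real.sqrt_pos.mpr (by linarith)
  unfold dT
  refine contDiffAt_const.add (him.div (contDiffAt_const.mul
    ((contDiffAt_const.sub (hre.pow 2)).sqrt ?_)) ?_)
  · linarith
  · positivity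

/-- The derivatives. -/
theorem hasFDerivAt_dX {z : ℂ} (h : ‖z‖ < Real.sqrt 2) :
    HasFDerivAt dX ((2 * Real.sqrt (2 - z.re ^ 2)) • Complex.reCLM) z := by
  have h1 : z.re ^ 2 < 2 := by nlinarith [sq_lt_two h, sq_nonneg z.im]
  obtain ⟨a1, a2⟩ := ratio_bounds h1
  have h0 : 0 < 2 - z.re ^ 2 := by linarith
  have hs : 0 < Real.sqrt (2 - z.re ^ 2) := Real.sqrt_pos.mpr h0
  have key : HasDerivAt (fun p : ℝ => Real.pi + p * Real.sqrt (2 - p ^ 2) +
      2 * Real.arcsin (p / Real.sqrt 2)) (2 * Real.sqrt (2 - z.re ^ 2)) z.re := by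
    have e1 : HasDerivAt (fun p : ℝ => 2 - p ^ 2) (-(2 * z.re)) z.re := by
      simpa using ((hasDerivAt_id z.re).pow 2).const_sub 2
    have e2 := e1.sqrt h0.ne'
    have e3 := (hasDerivAt_id z.re).mul e2
    have e4 := (Real.hasDerivAt_arcsin a1.ne' a2.ne).comp z.re
      ((hasDerivAt_id z.re).div_const (Real.sqrt 2))
    have e5 := (e3.const_add Real.pi).add (e4.const_mul 2)
    refine e5.congr_deriv ?_
    have hsq := Real.sq_sqrt h0.le
    have h2 := Real.sq_sqrt (show (0 : ℝ) ≤ 2 by norm_num)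
    have e6 : 1 - (z.re / Real.sqrt 2) ^ 2 = (2 - z.re ^ 2) / 2 := by
      rw [div_pow, h2]; ring
    simp only [id]
    rw [e6, Real.sqrt_div h0.le]
    field_simp
    rw [hsq]
    ring
  have := key.comp_hasFDerivAt z (Complex.reCLM.hasFDerivAt)
  exact this

theorem hasFDerivAt_dT {z : ℂ} (h : ‖z‖ < Real.sqrt 2) :
    ∃ c : ℝ, HasFDerivAt dT ((1 / (2 * Real.sqrt (2 - z.re ^ 2))) • Complex.imCLM +
      c • Complex.reCLM) z := by
  have h1 : z.re ^ 2 < 2 := by nlinarith [sq_lt_two h, sq_nonneg z.im]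
  have h0 : 0 < 2 - z.re ^ 2 := by linarith
  have hs : 0 < Real.sqrt (2 - z.re ^ 2) := Real.sqrt_pos.mpr h0
  have key : ∃ c', HasDerivAt (fun p : ℝ => (2 * Real.sqrt (2 - p ^ 2))⁻¹) c' z.re := by
    have e1 : HasDerivAt (fun p : ℝ => 2 - p ^ 2) (-(2 * z.re)) z.re := by
      simpa using ((hasDerivAt_id z.re).pow 2).const_sub 2
    exact ⟨_, ((e1.sqrt h0.ne').const_mul 2).inv (by positivity)⟩
  obtain ⟨c', hc'⟩ := key
  have k1 := hc'.comp_hasFDerivAt z (Complex.reCLM.hasFDerivAt (x := z))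
  have k2 := (Complex.imCLM.hasFDerivAt (x := z)).mul k1
  refine ⟨z.im * c', ?_⟩
  have k3 := k2.const_add (1 / 2 : ℝ)
  have e : dT = fun w : ℂ => 1 / 2 + Complex.imCLM w *
      ((fun p : ℝ => (2 * Real.sqrt (2 - p ^ 2))⁻¹) ∘ ⇑Complex.reCLM) w := by
    funext w
    simp [dT, div_eq_mul_inv]
  rw [e]
  refine k3.congr_fderiv ?_
  ext v
  all_goals
    simp
    try ring

end Pool.Agent.W_f4b591
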