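import Mathlib
import Pool.Agent.W_f4b591.Der

namespace Pool.Agent.W_f4b591

open Module Submodule

variable {V : Type*} [NormedAddCommGroup V] [NormedSpace ℝ V]
  {B : V →L[ℝ] V →L[ℝ] V} {ω : V →L[ℝ] V →L[ℝ] ℝ} {Γ : Set V} {n : ℕ}

/-- the linear data of a chart -/
structure Dat (B : V →L[ℝ] V →L[ℝ] V) (ω : V →L[ℝ] V →L[ℝ] ℝ) (L : Submodule ℝ V)
    (l m : Fin n → V) (J : Set (Fin n)) : Prop where
  hB : TwoStep B
  hω : Symplectic B ω
  hDL : der B ≤ L
  hLL : perp ω L = L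
  hl : ∀ j, l j ∈ L
  hlJ : ∀ j ∈ J, l j ∈ der B
  hJ : der B ≤ span ℝ (l '' J)
  hm : ∀ i j, ω (m i) (l j) = if i = j then 1 else 0

namespace Dat

variable {L : Submodule ℝ V} {l m : Fin n → V} {J : Set (Fin n)}

theorem m_perp (d : Dat B ω L l m J) {j : Fin n} (hj : j ∉ J) : m j ∈ perp ω (der B) := by
  have key : ∀ y ∈ span ℝ (l '' J), ω (m j) y = 0 := by
    intro y hy
    induction hy using span_induction with
    | mem y hy =>
      obtain ⟨i, hi, rfl⟩ := hy
      rw [d.hm, if_neg]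
      rintro rfl
      exact hj hi
    | zero => simp
    | add a b _ _ ha hb => rw [map_add, ha, hb, add_zero]
    | smul c a _ ha => rw [map_smul, ha, smul_zero]
  exact fun y hy => key y (d.hJ hy)

theorem lin_dual (d : Dat B ω L l m J) (x : Fin n → ℝ) (j : Fin n) : ω (lin m x) (l j) = x j := by
  rw [lin_apply]
  simp [sum_apply, d.hm]

theorem lin_mem (d : Dat B ω L l m J) (t : Fin n → ℝ) : lin l t ∈ L := by
  rw [lin_apply]
  exact sum_mem (fun j _ => smul_mem _ _ (d.hl j))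

theorem sub_cut (d : Dat B ω L l m J) (x y : Fin n → ℝ) (h : ∀ j ∈ J, y j = x j) :
    lin m y - lin (cut J m) x ∈ perp ω (der B) := by
  classical
  rw [lin_apply, lin_apply, ← Finset.sum_sub_distrib]
  refine sum_mem (fun j _ => ?_)
  by_cases hj : j ∈ J
  · rw [h j hj]; simp [cut, hj]
  · simp only [cut, if_neg hj, smul_zero, sub_zero]
    exact smul_mem _ _ (d.m_perp hj)

theorem B_lJ (d : Dat B ω L l m J) {j : Fin n} (hj : j ∈ J) (v : V) : B v (l j) = 0 :=
  d.hB.der_right (d.hlJ j hj) v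

theorem bpt_eq (x : Fin n → ℝ) :
    bpt B ω l m J x = lin m (fun j => x j + quad B ω l m J x j) := by
  rw [bpt, lin_apply, lin_apply, ← Finset.sum_add_distrib]
  exact Finset.sum_congr rfl (fun j _ => by rw [add_smul])

/-- the coefficients of the derivative of the base point -/
noncomputable def dco (B : V →L[ℝ] V →L[ℝ] V) (ω : V →L[ℝ] V →L[ℝ] ℝ) (l m : Fin n → V)
    (J : Set (Fin n)) (x a : Fin n → ℝ) (j : Fin n) : ℝ :=
  a j + (1 / 2 : ℝ) * (ω (lin (cut J m) a) (B (lin (cut J m) x) (l j)) +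
    ω (lin (cut J m) x) (B (lin (cut J m) a) (l j)))

theorem dbpt_eq (x a : Fin n → ℝ) :
    dbpt B ω l m J x a = lin m (dco B ω l m J x a) := by
  rw [dbpt, lin_apply m a, lin_apply m (dco B ω l m J x a), ← Finset.sum_add_distrib]
  exact Finset.sum_congr rfl (fun j _ => by rw [dco, add_smul])

theorem bpt_sub (d : Dat B ω L l m J) (x : Fin n → ℝ) :
    bpt B ω l m J x - lin (cut J m) x ∈ perp ω (der B) := by
  rw [bpt_eq]
  apply d.sub_cut
  intro j hj
  simp [quad, d.B_lJ hj]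

theorem dbpt_sub (d : Dat B ω L l m J) (x a : Fin n → ℝ) :
    dbpt B ω l m J x a - lin (cut J m) a ∈ perp ω (der B) := by
  rw [dbpt_eq]
  apply d.sub_cut
  intro j hj
  simp [dco, d.B_lJ hj]

theorem B_bpt (d : Dat B ω L l m J) (x : Fin n → ℝ) {v : V} (hv : v ∈ L) :
    B (bpt B ω l m J x) v = B (lin (cut J m) x) v := by
  have h := abelian_perp d.hB d.hω (d.bpt_sub x) (lag_le d.hDL d.hLL hv)
  rw [map_sub, sub_apply, sub_eq_zero] at h
  exact h

theorem om_bpt (d : Dat B ω L l m J) (x : Fin n → ℝ) {v : V} (hv : v ∈ der B) :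
    ω (bpt B ω l m J x) v = ω (lin (cut J m) x) v := by
  have h := d.bpt_sub x v hv
  rw [map_sub, sub_apply, sub_eq_zero] at h
  exact h

theorem om_dbpt (d : Dat B ω L l m J) (x a : Fin n → ℝ) {v : V} (hv : v ∈ der B) :
    ω (dbpt B ω l m J x a) v = ω (lin (cut J m) a) v := by
  have h := d.dbpt_sub x a v hv
  rw [map_sub, sub_apply, sub_eq_zero] at h
  exact h

/-- the derivative of the coordinates along the chart -/
theorem dcoord (d : Dat B ω L l m J) (x a : Fin n → ℝ) (j : Fin n) :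
    ω (dbpt B ω l m J x a) (l j - B (bpt B ω l m J x) (l j)) = a j := by
  rw [map_sub, d.om_dbpt x a (mem_der _ _), d.B_bpt x (d.hl j), dbpt_eq, d.lin_dual, dco,
    lag_sym d.hω d.hDL d.hLL d.hB (d.hl j) (lin (cut J m) x) (lin (cut J m) a)]
  ring

/-- the derivative of the potential -/
theorem om_dshf (d : Dat B ω L l m J) (p a : V) (y : Fin n → ℝ) :
    ω (lin m y) (dshf B ω l m p a) =
      (1 / 2) * ω a (lin m y) - (1 / 6) * (ω a (B p (lin m y)) + ω p (B a (lin m y))) := by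
  have e : ω (lin m y) (dshf B ω l m p a) = ∑ i, ((1 / 2 : ℝ) * ω a (m i) -
      (1 / 6 : ℝ) * (ω a (B p (m i)) + ω p (B a (m i)))) * y i := by
    rw [dshf, map_sum]
    refine Finset.sum_congr rfl (fun i _ => ?_)
    rw [map_smul, d.lin_dual, smul_eq_mul]
  rw [e, lin_apply]
  simp only [map_sum, map_smul, smul_eq_mul, Finset.mul_sum, ← Finset.sum_add_distrib,
    ← Finset.sum_sub_distrib]
  refine Finset.sum_congr rfl (fun i _ => ?_)
  ring

theorem shf_mem (d : Dat B ω L l m J) (p : V) : shf B ω l m p ∈ L :=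
  sum_mem (fun j _ => smul_mem _ _ (d.hl j))

theorem dshf_mem (d : Dat B ω L l m J) (p a : V) : dshf B ω l m p a ∈ L :=
  sum_mem (fun j _ => smul_mem _ _ (d.hl j))

theorem fib_mem (d : Dat B ω L l m J) (p : V) (t : Fin n → ℝ) : fib B ω l m p t ∈ L :=
  add_mem (add_mem (d.lin_mem t) (d.shf_mem p)) (d.hDL (mem_der _ _))

theorem pair (d : Dat B ω L l m J) (x a t : Fin n → ℝ) :
    ω (dbpt B ω l m J x a) (lin l t - B (bpt B ω l m J x) (lin l t)) = ∑ j, a j * t j := by
  have h : lin l t - B (bpt B ω l m J x) (lin l t) =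
      ∑ j, t j • (l j - B (bpt B ω l m J x) (l j)) := by
    rw [lin_apply, map_sum, ← Finset.sum_sub_distrib]
    refine Finset.sum_congr rfl (fun j _ => ?_)
    rw [map_smul, smul_sub]
  rw [h, map_sum]
  refine Finset.sum_congr rfl (fun j _ => ?_)
  rw [map_smul, d.dcoord, smul_eq_mul, mul_comm]

variable {W : Type*} [NormedAddCommGroup W] [NormedSpace ℝ W]

/-- The chart is symplectic. -/
theorem form_chart (d : Dat B ω L l m J) {x t : W → Fin n → ℝ} {z : W}
    {x' t' : W → Fin n → ℝ} (hx : Der x z x') (ht : Der t z t') (u v : W) :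
    form B ω (chart B ω l m J (x z) (t z))
      (fderiv ℝ (fun w => chart B ω l m J (x w) (t w)) z u)
      (fderiv ℝ (fun w => chart B ω l m J (x w) (t w)) z v) =
      ∑ j, (x' u j * t' v j - x' v j * t' u j) := by
  obtain ⟨F', hF, hF'⟩ := der_chart (B := B) (ω := ω) l m J hx ht
  rw [hF.fderiv, hF', hF']
  simp only
  set p := bpt B ω l m J (x z) with hp
  set s := shf B ω l m p with hs
  set f := fib B ω l m p (t z) with hf
  have hfL : f ∈ L := d.fib_mem p (t z)
  have key : ∀ a τ σ : V, τ ∈ L → σ ∈ L →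
      (τ + σ + (B a s + B p σ)) + a + (1 / 2 : ℝ) • (B (τ + σ + (B a s + B p σ)) p + B f a) -
        (1 / 2 : ℝ) • B (chart B ω l m J (x z) (t z))
          ((τ + σ + (B a s + B p σ)) + a + (1 / 2 : ℝ) • (B (τ + σ + (B a s + B p σ)) p + B f a)) =
      (τ - B p τ) + (σ + B a s) + a - (1 / 2 : ℝ) • B p a := by
    intro a τ σ hτ hσ
    have e1 : B f τ = 0 := lag_comm d.hB d.hω d.hDL d.hLL hfL hτ
    have e2 : B f σ = 0 := lag_comm d.hB d.hω d.hDL d.hLL hfL hσ
    have e3 := d.hB.skew τ p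
    have e4 := d.hB.skew σ p
    rw [chart, mul, ← hp, ← hf]
    simp only [map_add, map_smul, map_neg, add_apply, smul_apply, d.hB.two, d.hB.two', e1, e2, e3,
      e4, smul_zero, add_zero, zero_add, neg_zero]
    module
  rw [form, key _ _ _ (d.lin_mem _) (d.dshf_mem _ _), key _ _ _ (d.lin_mem _) (d.dshf_mem _ _),
    core_alg d.hB d.hω d.hDL d.hLL (d.shf_mem p) (d.lin_mem _) (d.lin_mem _) (d.dshf_mem _ _)
      (d.dshf_mem _ _), d.pair, d.pair, Finset.sum_sub_distrib]
  · rw [dbpt_eq (x z) (x' u)]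
    exact d.om_dshf _ _ _
  · rw [dbpt_eq (x z) (x' v)]
    exact d.om_dshf _ _ _

end Dat

end Pool.Agent.W_f4b591
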