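import Mathlib
import Pool.Agent.W_f4b591.Sym

namespace Pool.Agent.W_f4b591

open Module Submodule

variable {V : Type*} [NormedAddCommGroup V] [NormedSpace ℝ V]
  {B : V →L[ℝ] V →L[ℝ] V} {ω : V →L[ℝ] V →L[ℝ] ℝ} {Γ : Set V} {n : ℕ}

/-- the affine coordinate belonging to a vector of the Lagrangian subspace -/
noncomputable def coo (B : V →L[ℝ] V →L[ℝ] V) (ω : V →L[ℝ] V →L[ℝ] ℝ) (l v : V) : ℝ :=
  ω v l - (1 / 2 : ℝ) * ω v (B v l)

namespace Dat

variable {L : Submodule ℝ V} {l m : Fin n → V} {J : Set (Fin n)}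

theorem coo_bpt (d : Dat B ω L l m J) (x : Fin n → ℝ) (j : Fin n) :
    coo B ω (l j) (bpt B ω l m J x) = x j := by
  rw [coo, d.B_bpt x (d.hl j), d.om_bpt x (mem_der _ _), bpt_eq, d.lin_dual, quad]
  ring

theorem coo_mul_L (d : Dat B ω L l m J) {f : V} (hf : f ∈ L) (v : V) (j : Fin n) :
    coo B ω (l j) (mul B f v) = coo B ω (l j) v := by
  have D : ∀ x y, B x y ∈ L := fun x y => d.hDL (mem_der x y)
  have e1 : ω f (l j) = 0 := lag_iso d.hLL hf (d.hl j)
  have e2 : ω (B f v) (l j) = 0 := lag_iso d.hLL (D _ _) (d.hl j)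
  have e3 : B f (l j) = 0 := lag_comm d.hB d.hω d.hDL d.hLL hf (d.hl j)
  have e4 : ω f (B v (l j)) = 0 := lag_iso d.hLL hf (D _ _)
  have e5 : ω (B f v) (B v (l j)) = 0 := lag_iso d.hLL (D _ _) (D _ _)
  rw [coo, coo, mul]
  simp only [map_add, map_smul, add_apply, smul_apply, e1, e2, e3, e4, e5, d.hB.two, smul_zero,
    smul_eq_mul, mul_zero, add_zero, zero_add]

theorem coo_chart (d : Dat B ω L l m J) (x t : Fin n → ℝ) (j : Fin n) :
    coo B ω (l j) (chart B ω l m J x t) = x j := by
  rw [chart, d.coo_mul_L (d.fib_mem _ _), d.coo_bpt]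

theorem coo_mul (d : Dat B ω L l m J) {g v : V} {j : Fin n}
    (h : l j ∈ der B ∨ g ∈ perp ω (der B)) :
    coo B ω (l j) (mul B g v) = ω g (l j) + coo B ω (l j) v := by
  have D : ∀ x y, B x y ∈ L := fun x y => d.hDL (mem_der x y)
  have e2 : ω (B g v) (l j) = 0 := lag_iso d.hLL (D _ _) (d.hl j)
  have e5 : ω (B g v) (B v (l j)) = 0 := lag_iso d.hLL (D _ _) (D _ _)
  rcases h with h | h
  · have z : ∀ u, B u (l j) = 0 := fun u => d.hB.der_right h u
    rw [coo, coo, mul]
    simp only [map_add, map_smul, add_apply, smul_apply, e2, z, map_zero, smul_zero,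
      smul_eq_mul, mul_zero, add_zero, zero_add]
    ring
  · have e3 : B g (l j) = 0 := abelian_perp d.hB d.hω h (lag_le d.hDL d.hLL (d.hl j))
    have e4 : ω g (B v (l j)) = 0 := h _ (mem_der _ _)
    rw [coo, coo, mul]
    simp only [map_add, map_smul, add_apply, smul_apply, e2, e3, e4, e5, d.hB.two, smul_zero,
      smul_eq_mul, mul_zero, add_zero, zero_add]
    ring

theorem int_small {k : ℤ} {a b : ℝ} (h : a = k * (2 * Real.pi) + b) (h0 : 0 < a ∧ a < 2 * Real.pi)
    (h1 : 0 < b ∧ b < 2 * Real.pi) : k = 0 := by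
  have hp := Real.pi_pos
  have h2 : (k : ℝ) < 1 := by
    by_contra hk
    push Not at hk
    nlinarith
  have h3 : (-1 : ℝ) < k := by
    by_contra hk
    push Not at hk
    nlinarith
  have h2' : k < 1 := by exact_mod_cast h2
  have h3' : -1 < k := by exact_mod_cast h3
  omega

/-- The translates of the box are disjoint. -/
theorem box_inj (d : Dat B ω L l m J) (hΓ : Lattice B Γ) (hA : Areas B ω Γ)
    (hlΓ : ∀ j, l j ∈ Γ) (hZ : ∀ x ∈ Γ, x ∈ L → ∃ k : Fin n → ℤ, x = ∑ j, (k j : ℝ) • l j)
    (hli : LinearIndependent ℝ l) (hsp : span ℝ (Set.range l) = L)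
    {x t x' t' : Fin n → ℝ} (hx : ∀ j, 0 < x j ∧ x j < 2 * Real.pi)
    (hx' : ∀ j, 0 < x' j ∧ x' j < 2 * Real.pi) (ht : ∀ j, 0 < t j ∧ t j < 1)
    (ht' : ∀ j, 0 < t' j ∧ t' j < 1) {g : V} (hg : g ∈ Γ)
    (h : mul B g (chart B ω l m J x t) = chart B ω l m J x' t') : x = x' ∧ t = t' := by
  -- first the coordinates belonging to the commutator ideal
  have s1 : ∀ j ∈ J, ω g (l j) = 0 := by
    intro j hj
    obtain ⟨k, hk⟩ := hA g hg (l j) (hlΓ j) (d.B_lJ hj g)
    have e := congrArg (coo B ω (l j)) h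
    rw [d.coo_mul (Or.inl (d.hlJ j hj)), d.coo_chart, d.coo_chart, hk] at e
    rw [hk, int_small e.symm (hx' j) (hx j)]
    simp
  have s2 : g ∈ perp ω (der B) := by
    have key : ∀ y ∈ span ℝ (l '' J), ω g y = 0 := by
      intro y hy
      induction hy using span_induction with
      | mem y hy =>
        obtain ⟨i, hi, rfl⟩ := hy
        exact s1 i hi
      | zero => simp
      | add a b _ _ ha hb => rw [map_add, ha, hb, add_zero]
      | smul c a _ ha => rw [map_smul, ha, smul_zero]
    exact fun y hy => key y (d.hJ hy)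
  -- then all coordinates
  have s3 : ∀ j, ω g (l j) = 0 := by
    intro j
    obtain ⟨k, hk⟩ := hA g hg (l j) (hlΓ j)
      (abelian_perp d.hB d.hω s2 (lag_le d.hDL d.hLL (d.hl j)))
    have e := congrArg (coo B ω (l j)) h
    rw [d.coo_mul (Or.inr s2), d.coo_chart, d.coo_chart, hk] at e
    rw [hk, int_small e.symm (hx' j) (hx j)]
    simp
  have hxx : x = x' := by
    funext j
    have e := congrArg (coo B ω (l j)) h
    rw [d.coo_mul (Or.inr s2), d.coo_chart, d.coo_chart, s3 j, zero_add] at e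
    exact e
  refine ⟨hxx, ?_⟩
  subst hxx
  have s4 : g ∈ L := by
    have key : ∀ y ∈ span ℝ (Set.range l), ω g y = 0 := by
      intro y hy
      induction hy using span_induction with
      | mem y hy =>
        obtain ⟨i, rfl⟩ := hy
        exact s3 i
      | zero => simp
      | add a b _ _ ha hb => rw [map_add, ha, hb, add_zero]
      | smul c a _ ha => rw [map_smul, ha, smul_zero]
    rw [← d.hLL]
    rw [hsp] at key
    exact key
  obtain ⟨k, hk⟩ := hZ g hg s4
  set p := bpt B ω l m J x with hp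
  have hc : B g (fib B ω l m p t) = 0 := lag_comm d.hB d.hω d.hDL d.hLL s4 (d.fib_mem p t)
  have h5 : mul B (g + fib B ω l m p t) p = mul B (fib B ω l m p t') p := by
    have e : mul B g (fib B ω l m p t) = g + fib B ω l m p t := by simp [mul, hc]
    rw [← e, mul_assoc' d.hB]
    exact h
  have h6 : g + fib B ω l m p t = fib B ω l m p t' := by
    set u := g + fib B ω l m p t - fib B ω l m p t' with hu
    have h7 : u + (1 / 2 : ℝ) • B u p = 0 := by
      rw [mul, mul] at h5
      rw [hu, map_sub, sub_apply, smul_sub]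
      have := sub_eq_zero.mpr h5
      rw [← this]
      abel
    have h8 : B u p = 0 := by
      have h9 : u = -((1 / 2 : ℝ) • B u p) := eq_neg_of_add_eq_zero_left h7
      have := congrArg (fun y => B y p) h9
      simpa [d.hB.two] using this
    rw [h8, smul_zero, add_zero] at h7
    exact sub_eq_zero.mp h7
  have h7 : ∑ j, ((k j : ℝ) + t j - t' j) • l j = 0 := by
    have e : g + lin l t = lin l t' := by
      have := h6
      rw [fib, fib] at this
      have h8 : (g + lin l t) + (shf B ω l m p + B p (shf B ω l m p)) =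
        lin l t' + (shf B ω l m p + B p (shf B ω l m p)) := by
        rw [← add_assoc, ← add_assoc, ← this]
        abel
      exact add_right_cancel h8
    rw [hk, lin_apply, lin_apply] at e
    simp only [sub_smul, add_smul, Finset.sum_sub_distrib, Finset.sum_add_distrib, e, sub_self]
  have h8 := Fintype.linearIndependent_iff.mp hli _ h7
  funext j
  have h9 := h8 j
  have ha := ht j
  have hb := ht' j
  have hk1 : (k j : ℝ) < 1 := by linarith
  have hk2 : (-1 : ℝ) < k j := by linarith
  have hk1' : k j < 1 := by exact_mod_cast hk1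
  have hk2' : -1 < k j := by exact_mod_cast hk2
  have hk0 : k j = 0 := by omega
  rw [hk0] at h9
  simp only [Int.cast_zero, zero_add] at h9
  linarith

end Dat

end Pool.Agent.W_f4b591
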