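import Mathlib
import Pool.Agent.W_f4b591.Inj
import Pool.Agent.W_f4b591.Disc

namespace Pool.Agent.W_f4b591

open Module Submodule
open scoped ContDiff

variable {V : Type*} [NormedAddCommGroup V] [NormedSpace ℝ V]
  {B : V →L[ℝ] V →L[ℝ] V} {σ : V →L[ℝ] V →L[ℝ] ℝ} {Γ : Set V} {n : ℕ}

theorem exists_dual (hσ : Symplectic B σ) {l : Fin n → V} (hli : LinearIndependent ℝ l) :
    ∃ m : Fin n → V, ∀ i j, σ (m i) (l j) = if i = j then 1 else 0 := by
  let T : V →ₗ[ℝ] (Fin n → ℝ) := LinearMap.pi (fun j => ((σ.flip (l j) : V →L[ℝ] ℝ) : V →ₗ[ℝ] ℝ))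
  have hT : ∀ v j, T v j = σ v (l j) := fun v j => by simp [T]
  have hr : LinearMap.range T = ⊤ := by
    by_contra hne
    obtain ⟨φ, hφ0, hφ⟩ := exists_le_ker_of_lt_top _ (lt_top_iff_ne_top.mpr hne)
    let c : Fin n → ℝ := fun j => φ (Pi.single j 1)
    have hφc : ∀ y, φ y = ∑ j, c j * y j := by
      intro y
      conv_lhs => rw [pi_eq_sum_univ' y]
      rw [map_sum]
      refine Finset.sum_congr rfl (fun j _ => ?_)
      rw [map_smul, smul_eq_mul, mul_comm]
    have h0 : ∑ j, c j • l j = 0 := by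
      apply hσ.nondeg
      intro v
      have h1 : φ (T v) = 0 := hφ ⟨v, rfl⟩
      rw [hφc] at h1
      rw [hσ.skew, map_sum, neg_eq_zero, ← h1]
      refine Finset.sum_congr rfl (fun j _ => ?_)
      rw [map_smul, hT, smul_eq_mul]
    have hc := Fintype.linearIndependent_iff.mp hli _ h0
    apply hφ0
    apply LinearMap.ext
    intro y
    rw [hφc]
    simp [hc]
  have : ∀ i, ∃ v, T v = Pi.single i 1 := fun i => by
    have : Pi.single i (1 : ℝ) ∈ LinearMap.range T := by rw [hr]; exact mem_top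
    exact this
  choose m hm using this
  refine ⟨m, fun i j => ?_⟩
  rw [← hT, hm, Pi.single_apply]
  simp only [eq_comm]

theorem contDiff_lin (l : Fin n → V) : ContDiff ℝ ∞ (lin l) := (lin l).contDiff

theorem contDiff_bil {W E₁ E₂ E : Type*} [NormedAddCommGroup W] [NormedSpace ℝ W]
    [NormedAddCommGroup E] [NormedSpace ℝ E] [NormedAddCommGroup E₁] [NormedSpace ℝ E₁]
    [NormedAddCommGroup E₂] [NormedSpace ℝ E₂] {f : W → E₁} {g : W → E₂}
    (C : E₁ →L[ℝ] E₂ →L[ℝ] E) (hf : ContDiff ℝ ∞ f) (hg : ContDiff ℝ ∞ g) :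
    ContDiff ℝ ∞ (fun w => C (f w) (g w)) :=
  (C.contDiff.comp hf).clm_apply hg

theorem contDiff_bpt (l m : Fin n → V) (J : Set (Fin n)) :
    ContDiff ℝ ∞ (bpt B σ l m J) := by
  unfold bpt quad
  refine (contDiff_lin m).add (ContDiff.sum fun j _ => ContDiff.smul ?_ contDiff_const)
  exact contDiff_const.mul (contDiff_bil σ (contDiff_lin _)
    (contDiff_bil B (contDiff_lin _) contDiff_const))

theorem contDiff_shf (l m : Fin n → V) : ContDiff ℝ ∞ (shf B σ l m) := by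
  unfold shf pot
  refine ContDiff.sum fun j _ => ContDiff.smul ?_ contDiff_const
  exact (contDiff_const.mul (contDiff_bil σ contDiff_id contDiff_const)).sub
    (contDiff_const.mul (contDiff_bil σ contDiff_id (contDiff_bil B contDiff_id contDiff_const)))

theorem contDiff_chart (l m : Fin n → V) (J : Set (Fin n)) :
    ContDiff ℝ ∞ (fun q : (Fin n → ℝ) × (Fin n → ℝ) => chart B σ l m J q.1 q.2) := by
  unfold chart mul fib
  have h1 : ContDiff ℝ ∞ (fun q : (Fin n → ℝ) × (Fin n → ℝ) => bpt B σ l m J q.1) :=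
    (contDiff_bpt l m J).comp contDiff_fst
  have h2 : ContDiff ℝ ∞ (fun q : (Fin n → ℝ) × (Fin n → ℝ) =>
      shf B σ l m (bpt B σ l m J q.1)) := (contDiff_shf l m).comp h1
  have h3 : ContDiff ℝ ∞ (fun q : (Fin n → ℝ) × (Fin n → ℝ) => lin l q.2) :=
    (contDiff_lin l).comp contDiff_snd
  have h4 := (h3.add h2).add (contDiff_bil B h1 h2)
  exact (h4.add h1).add (contDiff_const.smul (contDiff_bil B h4 h1))

/-- The main theorem, with the polydisc as a set. -/
theorem main [FiniteDimensional ℝ V] (hdim : finrank ℝ V = 2 * n) (hB : TwoStep B)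
    (hΓ : Lattice B Γ) (hσ : Symplectic B σ) (hA : Areas B σ Γ) :
    ∃ F : EuclideanSpace ℂ (Fin n) → V,
      ContDiffOn ℝ ∞ F {z | ∀ j, ‖z j‖ < Real.sqrt 2} ∧
      (∀ z, (∀ j, ‖z j‖ < Real.sqrt 2) → ∀ u v,
        form B σ (F z) (fderiv ℝ F z u) (fderiv ℝ F z v) =
          ∑ j, ((u j).re * (v j).im - (u j).im * (v j).re)) ∧
      (∀ z w, (∀ j, ‖z j‖ < Real.sqrt 2) → (∀ j, ‖w j‖ < Real.sqrt 2) → ∀ γ ∈ Γ,
        mul B γ (F z) = F w → z = w) := by
  obtain ⟨L, l, J, hDL, hLL, hlΓ, hlL, hli, hsp, hZ, hlJ, hJ⟩ := exists_basis hB hσ hΓ hA hdim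
  obtain ⟨m, hm⟩ := exists_dual hσ hli
  have d : Dat B σ L l m J := ⟨hB, hσ, hDL, hLL, hlL, hlJ, hJ, hm⟩
  refine ⟨fun z => chart B σ l m J (fun j => dX (z j)) (fun j => dT (z j)), ?_, ?_, ?_⟩
  · intro z hz
    apply ContDiffAt.contDiffWithinAt
    have hp : ∀ j, ContDiffAt ℝ ∞ (fun z : EuclideanSpace ℂ (Fin n) => z j) z := fun j => by
      exact ((EuclideanSpace.proj j : EuclideanSpace ℂ (Fin n) →L[ℂ] ℂ).restrictScalars
        ℝ).contDiff.contDiffAt
    have h1 : ContDiffAt ℝ ∞ (fun z : EuclideanSpace ℂ (Fin n) => fun j => dX (z j)) z :=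
      contDiffAt_pi.mpr (fun j => ContDiffAt.comp (g := dX) z (contDiffAt_dX (hz j)) (hp j))
    have h2 : ContDiffAt ℝ ∞ (fun z : EuclideanSpace ℂ (Fin n) => fun j => dT (z j)) z :=
      contDiffAt_pi.mpr (fun j => ContDiffAt.comp (g := dT) z (contDiffAt_dT (hz j)) (hp j))
    exact ContDiffAt.comp (g := fun q : (Fin n → ℝ) × (Fin n → ℝ) => chart B σ l m J q.1 q.2) z
      (contDiff_chart l m J).contDiffAt (h1.prodMk h2)
  · intro z hz u v
    have hp : ∀ j, HasFDerivAt (fun z : EuclideanSpace ℂ (Fin n) => z j)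
        ((EuclideanSpace.proj j : EuclideanSpace ℂ (Fin n) →L[ℂ] ℂ).restrictScalars ℝ) z :=
      fun j => ((EuclideanSpace.proj j :
        EuclideanSpace ℂ (Fin n) →L[ℂ] ℂ).restrictScalars ℝ).hasFDerivAt
    choose c hc using fun j => hasFDerivAt_dT (hz j)
    have hx : Der (fun z : EuclideanSpace ℂ (Fin n) => fun j => dX (z j)) z
        (fun u j => 2 * Real.sqrt (2 - (z j).re ^ 2) * (u j).re) := by
      refine ⟨ContinuousLinearMap.pi (fun j => ((2 * Real.sqrt (2 - (z j).re ^ 2)) •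
        Complex.reCLM).comp ((EuclideanSpace.proj j :
          EuclideanSpace ℂ (Fin n) →L[ℂ] ℂ).restrictScalars ℝ)), ?_, ?_⟩
      · exact hasFDerivAt_pi.mpr (fun j =>
          HasFDerivAt.comp (g := dX) z (hasFDerivAt_dX (hz j)) (hp j))
      · intro u
        funext j
        simp
    have ht : Der (fun z : EuclideanSpace ℂ (Fin n) => fun j => dT (z j)) z
        (fun u j => 1 / (2 * Real.sqrt (2 - (z j).re ^ 2)) * (u j).im + c j * (u j).re) := by
      refine ⟨ContinuousLinearMap.pi (fun j => ((1 / (2 * Real.sqrt (2 - (z j).re ^ 2))) •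
        Complex.imCLM + c j • Complex.reCLM).comp ((EuclideanSpace.proj j :
          EuclideanSpace ℂ (Fin n) →L[ℂ] ℂ).restrictScalars ℝ)), ?_, ?_⟩
      · exact hasFDerivAt_pi.mpr (fun j => HasFDerivAt.comp (g := dT) z (hc j) (hp j))
      · intro u
        funext j
        simp
    rw [d.form_chart hx ht u v]
    refine Finset.sum_congr rfl (fun j _ => ?_)
    have h1 := sq_lt_two (hz j)
    have h0 : 0 < 2 - (z j).re ^ 2 := by nlinarith [sq_nonneg (z j).im]
    have hs : Real.sqrt (2 - (z j).re ^ 2) ≠ 0 := (Real.sqrt_pos.mpr h0).ne'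
    field_simp
    ring
  · intro z w hz hw g hg h
    obtain ⟨h1, h2⟩ := d.box_inj hΓ hA hlΓ hZ hli hsp (fun j => dX_mem (hz j))
      (fun j => dX_mem (hw j)) (fun j => dT_mem (hz j)) (fun j => dT_mem (hw j)) hg h
    ext j
    exact disc_inj (hz j) (hw j) (congrFun h1 j) (congrFun h2 j)

end Pool.Agent.W_f4b591
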